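import Pool.Agent.H90.STE.Stmts

/-!
# STE, row PG: pigeonhole for several sums
-/

set_option autoImplicit false

namespace Pool.STE

open Finset Real

theorem PG.half {ι : Type} (s : Finset ι) (N : ℕ) (x : ι → ℕ → ℝ) (X : ℝ) (hN : 1 ≤ N)
    (B : Finset ℕ) (hB : B ⊆ Finset.range N)
    (hx : ∀ w ∈ s, ∀ r < N, 0 ≤ x w r)
    (hX : ∀ w ∈ s, ∑ r ∈ Finset.range N, x w r ≤ X)
    (hb : ∀ r ∈ B, ∃ w ∈ s, 2 * s.card * X / N < x w r) : 2 * (B.card : ℝ) < N := by
  have hN0 : (0 : ℝ) < N := by
    exact_mod_cast hN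
  rcases B.eq_empty_or_nonempty with h0 | hne
  · rw [h0]
    simpa using hN0
  · have h1 : ∀ r ∈ B, 2 * s.card * X / N < ∑ w ∈ s, x w r := by
      intro r hr
      obtain ⟨w, hw, h⟩ := hb r hr
      exact h.trans_le (Finset.single_le_sum (f := fun w => x w r)
        (fun w' hw' => hx w' hw' r (Finset.mem_range.1 (hB hr))) hw)
    have h2 : (B.card : ℝ) * (2 * s.card * X / N) < ∑ r ∈ B, ∑ w ∈ s, x w r := by
      have := Finset.sum_lt_sum_of_nonempty hne h1
      simpa using this
    have h3 : ∑ r ∈ B, ∑ w ∈ s, x w r ≤ ∑ r ∈ Finset.range N, ∑ w ∈ s, x w r :=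
      Finset.sum_le_sum_of_subset_of_nonneg hB fun r hr _ =>
        Finset.sum_nonneg fun w hw => hx w hw r (Finset.mem_range.1 hr)
    have h4 : ∑ r ∈ Finset.range N, ∑ w ∈ s, x w r ≤ s.card * X := by
      rw [Finset.sum_comm]
      calc ∑ w ∈ s, ∑ r ∈ Finset.range N, x w r ≤ ∑ w ∈ s, X := Finset.sum_le_sum hX
        _ = s.card * X := by simp
    have h5 : (B.card : ℝ) * (2 * s.card * X / N) < s.card * X := (h2.trans_le h3).trans_le h4
    obtain ⟨r, hr⟩ := hne
    obtain ⟨w, hw, -⟩ := hb r hr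
    have hX0 : 0 ≤ X := (Finset.sum_nonneg fun r hr => hx w hw r (Finset.mem_range.1 hr)).trans
      (hX w hw)
    have hc : (0 : ℝ) < s.card := by exact_mod_cast Finset.card_pos.2 ⟨w, hw⟩
    have h6 : 0 < s.card * X := by
      rcases hX0.lt_or_eq with h | h
      · positivity
      · rw [← h] at h5
        simp at h5
    have h7 : (B.card : ℝ) * (2 * s.card * X / N) = (2 * B.card / N) * (s.card * X) := by ring
    rw [h7] at h5
    have h8 : 2 * (B.card : ℝ) / N < 1 := by
      by_contra h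
      push Not at h
      nlinarith
    rwa [div_lt_one hN0] at h8

open Classical in
theorem pg : PGStmt := by
  intro ι s N x y X Y hN hx hy hX hY
  by_contra hcon
  push Not at hcon
  set Bx := (Finset.range N).filter fun r => ∃ w ∈ s, 2 * s.card * X / N < x w r with hBx
  set By := (Finset.range N).filter fun r => ∃ w ∈ s, 2 * s.card * Y / N < y w r with hBy
  have h1 := PG.half s N x X hN Bx (Finset.filter_subset _ _) hx hX
    fun r hr => (Finset.mem_filter.1 hr).2
  have h2 := PG.half s N y Y hN By (Finset.filter_subset _ _) hy hY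
    fun r hr => (Finset.mem_filter.1 hr).2
  have h3 : Finset.range N ⊆ Bx ∪ By := by
    intro r hr
    obtain ⟨w, hw, h⟩ := hcon r (Finset.mem_range.1 hr)
    rw [Finset.mem_union]
    by_cases hxr : x w r ≤ 2 * s.card * X / N
    · exact Or.inr (Finset.mem_filter.2 ⟨hr, w, hw, h hxr⟩)
    · exact Or.inl (Finset.mem_filter.2 ⟨hr, w, hw, lt_of_not_ge hxr⟩)
  have h4 : N ≤ Bx.card + By.card := by
    have := (Finset.card_le_card h3).trans (Finset.card_union_le Bx By)
    rwa [Finset.card_range] at this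
  have h5 : (N : ℝ) ≤ Bx.card + By.card := by exact_mod_cast h4
  linarith

end Pool.STE
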